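import Pool.Agent.Lib.helper1.Tq10

set_option autoImplicit false

namespace Pool.Agent.Results.MP_db3298_pr.Cyclic

open MeasureTheory ProbabilityTheory Set Filter Topology
open scoped ENNReal

/-- workloads after a time `r` without arrivals -/
def drain (r : ℝ) (w : Fin 3 → ℝ) : Fin 3 → ℝ := fun i => max (w i - r) 0

/-- a customer `m = (class i, left service time, right service time)` joins server `i` (left) if
its workload is strictly smaller than that of server `i + 1` (right), and server `i + 1` otherwise -/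
noncomputable def join (w : Fin 3 → ℝ) (m : Fin 3 × ℝ × ℝ) : Fin 3 → ℝ :=
  if w m.1 < w (m.1 + 1) then Function.update w m.1 (w m.1 + m.2.1)
  else Function.update w (m.1 + 1) (w (m.1 + 1) + m.2.2)

/-- workloads just after the `n`-th arrival; `ω k = (interarrival time, customer)` -/
noncomputable def after (w : Fin 3 → ℝ) (ω : ℕ → ℝ × Fin 3 × ℝ × ℝ) (n : ℕ) : Fin 3 → ℝ :=
  Nat.rec w (fun k x => join (drain (ω k).1 x) (ω k).2) n

/-- time of the `n`-th arrival -/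
noncomputable def arr (ω : ℕ → ℝ × Fin 3 × ℝ × ℝ) (n : ℕ) : ℝ := ∑ k ∈ Finset.range n, (ω k).1

/-- number of arrivals in `[0, t]` -/
noncomputable def cnt (ω : ℕ → ℝ × Fin 3 × ℝ × ℝ) (t : ℝ) : ℕ := sInf {n | t < arr ω (n + 1)}

/-- the workload vector at time `t` -/
noncomputable def work (w : Fin 3 → ℝ) (ω : ℕ → ℝ × Fin 3 × ℝ × ℝ) (t : ℝ) : Fin 3 → ℝ :=
  drain (t - arr ω (cnt ω t)) (after w ω (cnt ω t))

/-- the law of the workload vector at time `t` -/
noncomputable def law (l : ℝ) (Fl Fr : Measure ℝ) (w : Fin 3 → ℝ) (t : ℝ) : Measure (Fin 3 → ℝ) :=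
  (Measure.infinitePi fun _ : ℕ => (expMeasure l).prod
    (((3 : ℝ≥0∞)⁻¹ • (Measure.count : Measure (Fin 3))).prod (Fl.prod Fr))).map
    fun ω => work w ω t

/-- weak convergence of the law at time `t` to a probability measure on the orthant -/
def StableFrom (l : ℝ) (Fl Fr : Measure ℝ) (w : Fin 3 → ℝ) : Prop :=
  ∃ π : Measure (Fin 3 → ℝ), IsProbabilityMeasure π ∧ π {x | ∀ i, 0 ≤ x i} = 1 ∧
    ∀ f : BoundedContinuousFunction (Fin 3 → ℝ) ℝ,
      Tendsto (fun t => ∫ x, f x ∂(law l Fl Fr w t)) atTop (𝓝 (∫ x, f x ∂π))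

/-- a probability distribution on `(0, ∞)` with finite mean -/
def Service (F : Measure ℝ) : Prop := IsProbabilityMeasure F ∧ F (Iic 0) = 0 ∧ Integrable id F

theorem result :
    (∃ l : ℝ, 0 < l ∧ ∃ Fl Fr : Measure ℝ, Service Fl ∧ Service Fr ∧
      ∃ w w' : Fin 3 → ℝ, (∀ i, 0 ≤ w i) ∧ (∀ i, 0 ≤ w' i) ∧
        StableFrom l Fl Fr w ∧ ¬ StableFrom l Fl Fr w') ∧
    (∃ l : ℝ, 0 < l ∧ ∃ Fl Fr Fl' Fr' : Measure ℝ,
      Service Fl ∧ Service Fr ∧ Service Fl' ∧ Service Fr' ∧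
      ∫ x, x ∂Fl = ∫ x, x ∂Fl' ∧ ∫ x, x ∂Fr = ∫ x, x ∂Fr' ∧
        StableFrom l Fl Fr 0 ∧ ¬ StableFrom l Fl' Fr' 0) := by
  open Pool.Agent.Lib.helper1.Tq in
  have sA : Service (tp (1 / 2) 1 1) := ⟨pA, tp_Iic _ one_pos one_pos, int_tp _ _ _⟩
  open Pool.Agent.Lib.helper1.Tq in
  have sB : Service (tp (1 / 2) (1 / 2) (3 / 2)) :=
    ⟨pB, tp_Iic _ (by norm_num) (by norm_num), int_tp _ _ _⟩
  open Pool.Agent.Lib.helper1.Tq in
  have sR : Service (tp (1 / 2000) 1 2) := ⟨pR, tp_Iic _ one_pos two_pos, int_tp _ _ _⟩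
  open Pool.Agent.Lib.helper1.Tq in
  exact ⟨⟨_, by norm_num, _, _, sA, sR, _, _, fun _ => le_rfl, fun _ => by norm_num, stabQ1, unstQ1⟩,
    _, by norm_num, _, _, _, _, sB, sR, sA, sR, by
      rw [mean_tp (by norm_num) (by norm_num), mean_tp (by norm_num) (by norm_num)]; norm_num,
    rfl, stabQ2, unstQ2⟩

end Pool.Agent.Results.MP_db3298_pr.Cyclic
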